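import Pool.Agent.Helper33.FS.Fixb
import Pool.Agent.Helper60.FS.Land

/-!
# Project FS (MP_75608d_al), FIX with high probability, in the conventions of helper60
-/

namespace Pool.Agent.Helper33.FS

open Equiv Finset Filter

variable {n K : ℕ}

theorem run_eq_ev (z : Fin K → Perm (Fin n)) (w : List (Fin K × Bool)) (v : Fin n) :
    Helper60.FS.run z w v = ev z w v := by
  induction w generalizing v with
  | nil => rfl
  | cons l w ih =>
    rw [Helper60.FS.run, ih, ev, Perm.mul_apply]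
    congr 1
    unfold Helper60.FS.act act
    split <;> rfl

theorem red_of_isReduced {w : List (Fin K × Bool)} (h : FreeGroup.IsReduced w) : Red w := by
  refine List.IsChain.imp (fun a b hab => ?_) h
  intro e
  rw [e] at hab
  have := hab rfl
  simp [flip] at this

theorem manyFix_of_not_FIX {J F₀ : ℕ} {z : Fin K → Perm (Fin n)} {w : List (Fin K × Bool)}
    (hw : FreeGroup.IsReduced w) (hJ : w.length ≤ J) (h : ¬ Helper60.FS.FIX z w F₀) :
    ManyFix J (F₀ + 1) z := by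
  unfold Helper60.FS.FIX at h
  push Not at h
  obtain ⟨g, h1, h2, h3⟩ := h
  have hg : FreeGroup.IsReduced g := by
    obtain ⟨a, b, hab⟩ := h1
    rw [← hab] at hw
    exact List.IsChain.right_of_append (List.IsChain.left_of_append hw)
  refine ⟨g, h2, red_of_isReduced hg, (h1.length_le).trans hJ, ?_⟩
  simp only [run_eq_ev] at h3
  exact h3

open Classical in
/-- FIX: with probability at least `1 - n ^ (-c)` all short reduced words have at most `F₀` fixed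
points (together with all their consecutive subwords) -/
theorem fix_whp (K : ℕ) (hK : 0 < K) (C₀ φ c : ℝ) (hφ : 0 < φ) :
    ∀ᶠ n : ℕ in atTop, ∀ J F₀ : ℕ, (J : ℝ) ≤ C₀ * Real.log n → (n : ℝ) ^ φ ≤ F₀ + 1 →
      ((univ.filter fun z : Fin K → Perm (Fin n) => ∃ w : List (Fin K × Bool),
        FreeGroup.IsReduced w ∧ w.length ≤ J ∧ ¬ Helper60.FS.FIX z w F₀).card : ℝ) ≤
      (n : ℝ) ^ (-c) * Fintype.card (Fin K → Perm (Fin n)) := by
  obtain ⟨s, hs⟩ := exists_nat_ge ((C₀ * Real.log (2 * K) + 1 + c) * 2 / φ)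
  obtain ⟨δ, hδ0, hδφ, hδ1⟩ : ∃ δ : ℝ, 0 < δ ∧ 16 * δ ≤ φ ∧ 16 * δ ≤ 1 :=
    ⟨min φ 1 / 16, by positivity, by linarith [min_le_left φ 1], by linarith [min_le_right φ 1]⟩
  have hlog : ∀ᶠ n : ℕ in atTop, ((s : ℝ) + 2) * (C₀ * Real.log n + 1) ≤ (n : ℝ) ^ δ := by
    have h1 : (fun x : ℝ => ((s : ℝ) + 2) * (C₀ * Real.log x + 1)) =o[atTop]
        fun x => x ^ δ := by
      refine Asymptotics.IsLittleO.const_mul_left (Asymptotics.IsLittleO.add ?_ ?_) _
      · exact (isLittleO_log_rpow_atTop hδ0).const_mul_left _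
      · exact (Asymptotics.isLittleO_const_left_of_ne one_ne_zero).2
          (tendsto_norm_atTop_atTop.comp (tendsto_rpow_atTop hδ0))
    have h2 := h1.def (c := 1) one_pos
    have h3 := tendsto_natCast_atTop_atTop.eventually h2
    filter_upwards [h3, eventually_gt_atTop 0] with n hn hn0
    rw [one_mul] at hn
    calc _ ≤ ‖((s : ℝ) + 2) * (C₀ * Real.log n + 1)‖ := le_abs_self _
      _ ≤ ‖(n : ℝ) ^ δ‖ := hn
      _ = (n : ℝ) ^ δ := by rw [Real.norm_eq_abs, abs_of_nonneg (by positivity)]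
  have hbig : ∀ᶠ n : ℕ in atTop, (2 : ℝ) ^ (s + 2) ≤ (n : ℝ) ^ δ :=
    (tendsto_natCast_atTop_atTop.eventually
      ((tendsto_rpow_atTop hδ0).eventually (eventually_ge_atTop _)))
  filter_upwards [hlog, hbig, eventually_gt_atTop 1] with n hlog hbig hn1 J F₀ hJ hF
  have hn : (1 : ℝ) < n := by exact_mod_cast hn1
  have hn0 : (0 : ℝ) < n := by linarith
  have hL : 0 ≤ Real.log n := Real.log_nonneg hn.le
  have hJ0 : (0 : ℝ) ≤ J := Nat.cast_nonneg J
  have hs0 : (0 : ℝ) ≤ s := Nat.cast_nonneg s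
  have hsJ : ((s : ℝ) + 2) * (J + 1) ≤ (n : ℝ) ^ δ :=
    (mul_le_mul_of_nonneg_left (by linarith) (by positivity)).trans hlog
  have hJ1 : (J : ℝ) + 1 ≤ (n : ℝ) ^ δ := by nlinarith
  have hsJ1 : (s : ℝ) * J ≤ (n : ℝ) ^ δ := by nlinarith
  have h4 : (4 : ℝ) ≤ (n : ℝ) ^ δ := by
    refine le_trans ?_ hbig
    rw [pow_add]
    have : (1 : ℝ) ≤ 2 ^ s := one_le_pow₀ (by norm_num)
    linarith
  have hpow : ∀ a b : ℝ, a ≤ b → (n : ℝ) ^ a ≤ (n : ℝ) ^ b := fun a b h =>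
    Real.rpow_le_rpow_of_exponent_le hn.le h
  have hmul : ∀ a b : ℝ, (n : ℝ) ^ a * (n : ℝ) ^ b = (n : ℝ) ^ (a + b) := fun a b =>
    (Real.rpow_add hn0 a b).symm
  have hd0 : (0 : ℝ) < (n : ℝ) ^ δ := by positivity
  -- the hypotheses of `manyFix_card`
  have e1 : 2 * (s * J) ^ 2 ≤ n := by
    have : (2 : ℝ) * (s * J) ^ 2 ≤ n := by
      calc (2 : ℝ) * (s * J) ^ 2 ≤ (n : ℝ) ^ δ * ((n : ℝ) ^ δ * (n : ℝ) ^ δ) := by
            refine mul_le_mul (by linarith) ?_ (by positivity) (by positivity)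
            rw [sq]
            exact mul_le_mul hsJ1 hsJ1 (by positivity) (by positivity)
        _ = (n : ℝ) ^ (δ + (δ + δ)) := by rw [hmul, hmul]
        _ ≤ (n : ℝ) ^ (1 : ℝ) := hpow _ _ (by linarith)
        _ = n := Real.rpow_one _
    exact_mod_cast this
  have e2 : s * J < n := by
    have : ((s * J : ℕ) : ℝ) < n := by
      push_cast
      calc (s : ℝ) * J ≤ (n : ℝ) ^ δ := hsJ1
        _ < (n : ℝ) ^ δ * (n : ℝ) ^ δ := by nlinarith
        _ = (n : ℝ) ^ (δ + δ) := hmul _ _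
        _ ≤ (n : ℝ) ^ (1 : ℝ) := hpow _ _ (by linarith)
        _ = n := Real.rpow_one _
    exact_mod_cast this
  have e3 : ((s * J ^ 2 : ℕ) : ℝ) ≤ (n : ℝ) ^ φ / 2 := by
    push_cast
    rw [le_div_iff₀ (by norm_num)]
    calc (s : ℝ) * J ^ 2 * 2 = (s * J) * (J * 2) := by ring
      _ ≤ (n : ℝ) ^ δ * ((n : ℝ) ^ δ * (n : ℝ) ^ δ) := by
          refine mul_le_mul hsJ1 ?_ (by positivity) (by positivity)
          exact mul_le_mul (by linarith) (by linarith) (by norm_num) (by positivity)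
      _ = (n : ℝ) ^ (δ + (δ + δ)) := by rw [hmul, hmul]
      _ ≤ (n : ℝ) ^ φ := hpow _ _ (by linarith)
  have e4 : (n : ℝ) ^ φ / 2 ≤ ((F₀ + 1 - s * J ^ 2 : ℕ) : ℝ) := by
    have h5 : s * J ^ 2 ≤ F₀ + 1 := by
      have : ((s * J ^ 2 : ℕ) : ℝ) ≤ ((F₀ + 1 : ℕ) : ℝ) := by
        push_cast at e3 ⊢
        have : 0 ≤ (n : ℝ) ^ φ := by positivity
        linarith
      exact_mod_cast this
    rw [Nat.cast_sub h5]
    push_cast at e3 ⊢
    linarith
  have e5 : (((J + 1) * J : ℕ) : ℝ) ≤ (n : ℝ) ^ (2 * δ) := by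
    push_cast
    rw [two_mul, ← hmul]
    exact mul_le_mul hJ1 (by linarith) hJ0 (by positivity)
  have e6 : ((2 * K : ℕ) : ℝ) ^ J ≤ (n : ℝ) ^ (C₀ * Real.log (2 * K)) := by
    have hK1 : (1 : ℝ) ≤ 2 * K := by
      have : (1 : ℝ) ≤ K := by exact_mod_cast hK
      linarith
    have hlK : 0 ≤ Real.log (2 * K) := Real.log_nonneg hK1
    calc ((2 * K : ℕ) : ℝ) ^ J = Real.exp (Real.log (2 * K) * J) := by
          rw [Real.exp_mul, Real.exp_log (by linarith), Real.rpow_natCast]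
          push_cast
          rfl
      _ ≤ Real.exp (Real.log (2 * K) * (C₀ * Real.log n)) := by
          exact Real.exp_le_exp.2 (mul_le_mul_of_nonneg_left hJ hlK)
      _ = (n : ℝ) ^ (C₀ * Real.log (2 * K)) := by
          rw [Real.rpow_def_of_pos hn0]
          congr 1
          ring
  set B := univ.filter fun z : Fin K → Perm (Fin n) => ∃ w : List (Fin K × Bool),
        FreeGroup.IsReduced w ∧ w.length ≤ J ∧ ¬ Helper60.FS.FIX z w F₀ with hB
  have hsub : B.card ≤ (univ.filter fun z : Fin K → Perm (Fin n) => ManyFix J (F₀ + 1) z).card := by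
    refine card_le_card fun z hz => ?_
    obtain ⟨w, h1, h2, h3⟩ := (mem_filter.1 hz).2
    exact mem_filter.2 ⟨mem_univ _, manyFix_of_not_FIX h1 h2 h3⟩
  have hcard : Fintype.card (Fin K → Perm (Fin n)) = Nat.factorial n ^ K := by
    simp [Fintype.card_perm]
  have hm := manyFix_card (n := n) (K := K) J (F₀ + 1) s e1 e2
  have hm' : (B.card : ℝ) * ((F₀ + 1 - s * J ^ 2 : ℕ) : ℝ) ^ s ≤
      (((J : ℝ) + 1) * ((2 * K : ℕ) : ℝ) ^ J) * (2 * (((J + 1) * J : ℕ) : ℝ) ^ s *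
        (Nat.factorial n : ℝ) ^ K) := by
    have := (Nat.mul_le_mul_right ((F₀ + 1 - s * J ^ 2) ^ s) hsub).trans hm
    have h6 : ((B.card * (F₀ + 1 - s * J ^ 2) ^ s : ℕ) : ℝ) ≤
      ((((J + 1) * (2 * K) ^ J) * (2 * ((J + 1) * J) ^ s * Nat.factorial n ^ K) : ℕ) : ℝ) := by
      exact_mod_cast this
    refine (le_of_eq ?_).trans (h6.trans (le_of_eq ?_))
    · push_cast; ring
    · push_cast; ring
  rw [hcard]
  push_cast
  have hN : (0 : ℝ) < (Nat.factorial n : ℝ) ^ K := by positivity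
  have hX : (0 : ℝ) < ((n : ℝ) ^ φ / 2) ^ s := by positivity
  have e7 : (B.card : ℝ) * ((n : ℝ) ^ φ / 2) ^ s ≤
      ((n : ℝ) ^ δ * (n : ℝ) ^ (C₀ * Real.log (2 * K))) * (2 * ((n : ℝ) ^ (2 * δ)) ^ s *
        (Nat.factorial n : ℝ) ^ K) := by
    refine le_trans ?_ (hm'.trans ?_)
    · exact mul_le_mul_of_nonneg_left (pow_le_pow_left₀ (by positivity) e4 s) (by positivity)
    · refine mul_le_mul (mul_le_mul hJ1 e6 (by positivity) (by positivity)) ?_ (by positivity)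
        (by positivity)
      refine mul_le_mul_of_nonneg_right ?_ (by positivity)
      exact mul_le_mul_of_nonneg_left (pow_le_pow_left₀ (by positivity) e5 s) (by norm_num)
  have e8 : ((n : ℝ) ^ δ * (n : ℝ) ^ (C₀ * Real.log (2 * K))) * (2 * ((n : ℝ) ^ (2 * δ)) ^ s) ≤
      (n : ℝ) ^ (-c) * ((n : ℝ) ^ φ / 2) ^ s := by
    rw [div_pow, ← mul_div_assoc, le_div_iff₀ (by positivity)]
    have r1 : ((n : ℝ) ^ (2 * δ)) ^ s = (n : ℝ) ^ (2 * δ * s) := by
      rw [← Real.rpow_natCast, ← Real.rpow_mul hn0.le]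
    have r2 : ((n : ℝ) ^ φ) ^ s = (n : ℝ) ^ (φ * s) := by
      rw [← Real.rpow_natCast, ← Real.rpow_mul hn0.le]
    rw [r1, r2]
    have r3 : (2 : ℝ) * 2 ^ s ≤ (n : ℝ) ^ δ := by
      refine le_trans ?_ hbig
      rw [pow_add]
      have : (0 : ℝ) < 2 ^ s := by positivity
      linarith
    calc _ = ((n : ℝ) ^ δ * (n : ℝ) ^ (C₀ * Real.log (2 * K))) * (n : ℝ) ^ (2 * δ * s) *
          (2 * 2 ^ s) := by ring
      _ ≤ ((n : ℝ) ^ δ * (n : ℝ) ^ (C₀ * Real.log (2 * K))) * (n : ℝ) ^ (2 * δ * s) *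
          (n : ℝ) ^ δ := by
          exact mul_le_mul_of_nonneg_left r3 (by positivity)
      _ = (n : ℝ) ^ (δ + C₀ * Real.log (2 * K) + 2 * δ * s + δ) := by
          rw [hmul, hmul, hmul]
      _ ≤ (n : ℝ) ^ (-c + φ * s) := by
          refine hpow _ _ ?_
          have h9 : (C₀ * Real.log (2 * K) + 1 + c) * 2 ≤ s * φ := by
            rw [div_le_iff₀ hφ] at hs
            linarith
          nlinarith
      _ = _ := by rw [hmul]
  have e9 : (B.card : ℝ) * ((n : ℝ) ^ φ / 2) ^ s ≤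
      ((n : ℝ) ^ (-c) * (Nat.factorial n : ℝ) ^ K) * ((n : ℝ) ^ φ / 2) ^ s := by
    calc _ ≤ _ := e7
      _ = (((n : ℝ) ^ δ * (n : ℝ) ^ (C₀ * Real.log (2 * K))) *
          (2 * ((n : ℝ) ^ (2 * δ)) ^ s)) * (Nat.factorial n : ℝ) ^ K := by ring
      _ ≤ ((n : ℝ) ^ (-c) * ((n : ℝ) ^ φ / 2) ^ s) * (Nat.factorial n : ℝ) ^ K :=
          mul_le_mul_of_nonneg_right e8 hN.le
      _ = _ := by ring
  exact le_of_mul_le_mul_right e9 hX

end Pool.Agent.Helper33.FS
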