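import Pool.Agent.Helper38.FS.Goals2

/-!
# Project FS (MP_75608d_al), middle levels: `S_STAY`

The simple walk killed outside `U`.
-/

set_option autoImplicit false

namespace Pool.Agent.Helper33.FS

open Finset Equiv Filter
open Pool.Agent.Helper60.FS (act run)
open Pool.Agent.Helper3.AK (Alt TupleGap tupleWalk)
open Pool.Agent.Helper38.FS

variable {n K : ℕ}

/-- the operator of the simple walk -/
noncomputable def wlk (z : Fin K → Perm (Fin n)) (f : Fin n → ℝ) (x : Fin n) : ℝ :=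
  (2 * (K : ℝ))⁻¹ * ∑ l : Lt K, f (act z l x)

theorem sum_lt (F : Lt K → ℝ) : ∑ l, F l = ∑ i : Fin K, (F (i, true) + F (i, false)) := by
  rw [Fintype.sum_prod_type]
  exact sum_congr rfl fun i _ => by rw [Fintype.sum_bool]

theorem act_true (z : Fin K → Perm (Fin n)) (i : Fin K) (x : Fin n) :
    act z (i, true) x = z i x := rfl

theorem act_false (z : Fin K → Perm (Fin n)) (i : Fin K) (x : Fin n) :
    act z (i, false) x = (z i).symm x := rfl

theorem sum_act (z : Fin K → Perm (Fin n)) (l : Lt K) (F : Fin n → ℝ) :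
    ∑ x, F (act z l x) = ∑ x, F x := by
  obtain ⟨i, b⟩ := l
  cases b
  · exact Equiv.sum_comp (z i).symm F
  · exact Equiv.sum_comp (z i) F

theorem wlk_sym (z : Fin K → Perm (Fin n)) (f g : Fin n → ℝ) :
    ∑ x, f x * wlk z g x = ∑ x, g x * wlk z f x := by
  have h : ∀ f g : Fin n → ℝ, ∑ x, f x * wlk z g x =
      (2 * (K : ℝ))⁻¹ * ∑ i, (∑ x, f x * g (z i x) + ∑ x, f x * g ((z i).symm x)) := by
    intro f g
    simp only [wlk, sum_lt, act_true, act_false]
    rw [← sum_congr rfl fun i (_ : i ∈ univ) => sum_add_distrib, sum_comm, mul_sum]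
    refine sum_congr rfl fun x _ => ?_
    rw [mul_left_comm, mul_sum]
    congr 1
    exact sum_congr rfl fun i _ => by ring
  rw [h, h]
  congr 1
  refine sum_congr rfl fun i _ => ?_
  rw [add_comm (∑ x, f x * g (z i x))]
  congr 1
  · rw [← Equiv.sum_comp (z i) fun x => f x * g ((z i).symm x)]
    exact sum_congr rfl fun x _ => by simp only [Equiv.symm_apply_apply]; ring
  · rw [← Equiv.sum_comp (z i).symm fun x => f x * g (z i x)]
    exact sum_congr rfl fun x _ => by simp only [Equiv.apply_symm_apply]; ring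

theorem wlk_psd (hK : 1 ≤ K) (z : Fin K → Perm (Fin n)) (f : Fin n → ℝ) :
    0 ≤ ∑ x, f x ^ 2 + ∑ x, f x * wlk z f x := by
  have hK' : (0 : ℝ) < 2 * K := by positivity
  have h1 : 0 ≤ ∑ l : Lt K, ∑ x, (f x + f (act z l x)) ^ 2 :=
    sum_nonneg fun l _ => sum_nonneg fun x _ => sq_nonneg _
  have h2 : ∑ l : Lt K, ∑ x, (f x + f (act z l x)) ^ 2 =
      ∑ l : Lt K, (2 * ∑ x, f x ^ 2 + 2 * ∑ x, f x * f (act z l x)) := by
    refine sum_congr rfl fun l _ => ?_
    have h3 : ∑ x, f (act z l x) ^ 2 = ∑ x, f x ^ 2 := sum_act z l fun x => f x ^ 2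
    have h4 : ∀ x, (f x + f (act z l x)) ^ 2 =
        f x ^ 2 + 2 * (f x * f (act z l x)) + f (act z l x) ^ 2 := fun x => by ring
    simp only [h4, sum_add_distrib, ← mul_sum]
    rw [h3]
    ring
  rw [h2, sum_add_distrib, sum_const, card_univ, ← mul_sum, sum_comm] at h1
  have h5 : ∑ x, f x * wlk z f x = (2 * (K : ℝ))⁻¹ * ∑ x, ∑ l : Lt K, f x * f (act z l x) := by
    rw [mul_sum]
    refine sum_congr rfl fun x _ => ?_
    rw [wlk, mul_left_comm, mul_sum]
  have h6 : (Fintype.card (Lt K) : ℝ) = 2 * K := by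
    simp [mul_comm]
  rw [nsmul_eq_mul, h6] at h1
  have h7 : 0 ≤ (2 * (K : ℝ))⁻¹ * (2 * (K : ℝ) * (2 * ∑ x, f x ^ 2) +
      2 * ∑ x, ∑ l : Lt K, f x * f (act z l x)) := mul_nonneg (by positivity) h1
  rw [mul_add, ← mul_assoc, inv_mul_cancel₀ hK'.ne', one_mul, mul_left_comm, ← h5] at h7
  linarith

theorem wlk_gap (z : Fin K → Alt n) (h : TupleGap z 1 (9 / 10)) (f : Fin n → ℝ)
    (hf : ∑ x, f x = 0) :
    ∑ x, f x * wlk (up z) f x ≤ (1 / 10) * ∑ x, f x ^ 2 := by
  have h1 := h (fun a => f (a 0)) (by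
    rw [← hf]
    exact Fintype.sum_equiv (Equiv.uniqueEmbeddingEquivResult) _ _ fun a => rfl)
  have h2 : ∑ a : Fin 1 ↪ Fin n, f (a 0) ^ 2 = ∑ x, f x ^ 2 :=
    Fintype.sum_equiv (Equiv.uniqueEmbeddingEquivResult) _ (fun x => f x ^ 2) fun a => rfl
  have h3 : ∑ a : Fin 1 ↪ Fin n, f (a 0) * tupleWalk z 1 (fun a => f (a 0)) a =
      ∑ x, f x * wlk (up z) f x := by
    refine Fintype.sum_equiv (Equiv.uniqueEmbeddingEquivResult) _
      (fun x => f x * wlk (up z) f x) fun a => ?_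
    change _ = f (a 0) * wlk (up z) f (a 0)
    rw [tupleWalk, wlk, sum_lt]
    rfl
  rw [h2] at h1
  rw [← h3]
  refine h1.trans (le_of_eq ?_)
  norm_num

theorem wlk_one (hK : 1 ≤ K) (z : Fin K → Perm (Fin n)) (c : ℝ) (x : Fin n) :
    wlk z (fun _ => c) x = c := by
  have hK' : (0 : ℝ) < 2 * K := by positivity
  rw [wlk, sum_const, card_univ, nsmul_eq_mul]
  have h6 : (Fintype.card (Lt K) : ℝ) = 2 * K := by
    simp [mul_comm]
  rw [h6, ← mul_assoc, inv_mul_cancel₀ hK'.ne', one_mul]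

theorem wlk_add (z : Fin K → Perm (Fin n)) (f g : Fin n → ℝ) (x : Fin n) :
    wlk z (fun x => f x + g x) x = wlk z f x + wlk z g x := by
  simp only [wlk, sum_add_distrib, mul_add]

theorem wlk_gapU (hK : 1 ≤ K) (z : Fin K → Alt n) (h : TupleGap z 1 (9 / 10))
    (U : Finset (Fin n)) (hU : 50 * U.card ≤ n) (f : Fin n → ℝ) (hf : ∀ x ∉ U, f x = 0) :
    ∑ x, f x * wlk (up z) f x ≤ (14 / 100) * ∑ x, f x ^ 2 := by
  rcases Nat.eq_zero_or_pos n with h0 | h0
  · subst h0
    simp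
  have hn : (0 : ℝ) < n := by exact_mod_cast h0
  obtain ⟨μ, hμ⟩ : ∃ μ : ℝ, μ = (∑ x, f x) / n := ⟨_, rfl⟩
  have hμ' : ∑ x, f x = n * μ := by rw [hμ]; field_simp
  have h1 := wlk_gap z h (fun x => f x + -μ) (by
    rw [sum_add_distrib, hμ']
    simp)
  have h2 : ∀ x, (f x + -μ) * wlk (up z) (fun x => f x + -μ) x =
      f x * wlk (up z) f x - μ * f x - μ * wlk (up z) f x + μ ^ 2 := by
    intro x
    rw [wlk_add, wlk_one hK]
    ring
  have h3 : ∑ x, wlk (up z) f x = n * μ := by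
    have := wlk_sym (up z) (fun _ => (1 : ℝ)) f
    simp only [one_mul, wlk_one hK, mul_one] at this
    rw [this, hμ']
  have h4 : ∀ x, (f x + -μ) ^ 2 = f x ^ 2 - 2 * μ * f x + μ ^ 2 := fun x => by ring
  simp only [h2, h4, sum_add_distrib, sum_sub_distrib, ← mul_sum, sum_const, card_univ,
    Fintype.card_fin, nsmul_eq_mul, hμ', h3] at h1
  have h5 : (∑ x, f x) ^ 2 ≤ U.card * ∑ x, f x ^ 2 := by
    have e1 : ∑ x, f x = ∑ x ∈ U, f x :=
      (sum_subset (subset_univ U) fun x _ hx => hf x hx).symm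
    have e2 : ∑ x ∈ U, f x ^ 2 ≤ ∑ x, f x ^ 2 :=
      sum_le_univ_sum_of_nonneg fun x => sq_nonneg _
    rw [e1]
    refine (sq_sum_le_card_mul_sum_sq).trans ?_
    exact mul_le_mul_of_nonneg_left e2 (Nat.cast_nonneg _)
  rw [hμ'] at h5
  have h6 : (50 : ℝ) * U.card ≤ n := by exact_mod_cast hU
  have h7 : 0 ≤ ∑ x, f x ^ 2 := sum_nonneg fun x _ => sq_nonneg _
  have h8 : n * μ ^ 2 * 50 ≤ ∑ x, f x ^ 2 := by
    have : n * (n * μ ^ 2 * 50) ≤ n * ∑ x, f x ^ 2 := by nlinarith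
    exact le_of_mul_le_mul_left this hn
  nlinarith

/-- the simple walk killed outside `U` -/
noncomputable def WU (z : Fin K → Perm (Fin n)) (U : Finset (Fin n)) :
    (Fin n → ℝ) →ₗ[ℝ] (Fin n → ℝ) where
  toFun f x := if x ∈ U then wlk z f x else 0
  map_add' f g := by
    funext x
    by_cases h : x ∈ U
    · simp only [h, if_true, Pi.add_apply]
      exact wlk_add z f g x
    · simp [h]
  map_smul' c f := by
    funext x
    by_cases h : x ∈ U
    · simp only [h, if_true, Pi.smul_apply, smul_eq_mul, RingHom.id_apply, wlk, ← mul_sum]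
      ring
    · simp [h]

theorem WU_apply (z : Fin K → Perm (Fin n)) (U : Finset (Fin n)) (f : Fin n → ℝ) (x : Fin n) :
    WU z U f x = if x ∈ U then wlk z f x else 0 := rfl

/-- its lazy form -/
noncomputable def LU (z : Fin K → Perm (Fin n)) (U : Finset (Fin n)) :
    (Fin n → ℝ) →ₗ[ℝ] (Fin n → ℝ) := (1 / 2 : ℝ) • (WU z U + 1)

theorem LU_apply (z : Fin K → Perm (Fin n)) (U : Finset (Fin n)) (f : Fin n → ℝ) (x : Fin n) :
    LU z U f x = (1 / 2) * ((if x ∈ U then wlk z f x else 0) + f x) := rfl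

theorem LU_supp (z : Fin K → Perm (Fin n)) (U : Finset (Fin n)) (f : Fin n → ℝ)
    (hf : ∀ x ∉ U, f x = 0) : ∀ x ∉ U, LU z U f x = 0 := by
  intro x hx
  rw [LU_apply, if_neg hx, hf x hx]
  norm_num

theorem ip_LU (z : Fin K → Perm (Fin n)) (U : Finset (Fin n)) (f g : Fin n → ℝ)
    (hf : ∀ x ∉ U, f x = 0) :
    ∑ x, f x * LU z U g x = (1 / 2) * (∑ x, f x * wlk z g x + ∑ x, f x * g x) := by
  rw [← sum_add_distrib, mul_sum]
  refine sum_congr rfl fun x _ => ?_
  rw [LU_apply]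
  by_cases hx : x ∈ U
  · rw [if_pos hx]; ring
  · rw [hf x hx]; ring

theorem LU_sym (z : Fin K → Perm (Fin n)) (U : Finset (Fin n)) (f g : Fin n → ℝ)
    (hf : ∀ x ∉ U, f x = 0) (hg : ∀ x ∉ U, g x = 0) :
    ∑ x, f x * LU z U g x = ∑ x, g x * LU z U f x := by
  rw [ip_LU z U f g hf, ip_LU z U g f hg, wlk_sym z f g]
  simp only [mul_comm]

theorem LU_norm (hK : 1 ≤ K) (z : Fin K → Alt n) (h : TupleGap z 1 (9 / 10))
    (U : Finset (Fin n)) (hU : 50 * U.card ≤ n) (f : Fin n → ℝ) (hf : ∀ x ∉ U, f x = 0) :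
    ∑ x, LU (up z) U f x ^ 2 ≤ (57 / 100) ^ 2 * ∑ x, f x ^ 2 := by
  have hpos : ∀ u : Fin n → ℝ, (∀ x ∉ U, u x = 0) → 0 ≤ ∑ x, u x * LU (up z) U u x := by
    intro u hu
    rw [ip_LU _ U u u hu]
    have := wlk_psd hK (up z) u
    have e : ∑ x, u x * u x = ∑ x, u x ^ 2 := sum_congr rfl fun x _ => (sq _).symm
    rw [e]
    linarith
  have hup : ∀ u : Fin n → ℝ, (∀ x ∉ U, u x = 0) →
      ∑ x, u x * LU (up z) U u x ≤ (57 / 100) * ∑ x, u x ^ 2 := by
    intro u hu
    rw [ip_LU _ U u u hu]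
    have := wlk_gapU hK z h U hU u hu
    have e : ∑ x, u x * u x = ∑ x, u x ^ 2 := sum_congr rfl fun x _ => (sq _).symm
    rw [e]
    linarith
  obtain ⟨g, hg⟩ : ∃ g, g = LU (up z) U f := ⟨_, rfl⟩
  have hgs : ∀ x ∉ U, g x = 0 := by rw [hg]; exact LU_supp _ U f hf
  obtain ⟨k, hk⟩ : ∃ k, k = LU (up z) U g := ⟨_, rfl⟩
  -- the four numbers
  have hfk : ∑ x, f x * k x = ∑ x, g x ^ 2 := by
    rw [hk, LU_sym (up z) U f g hf hgs, ← hg]
    exact sum_congr rfl fun x _ => (sq _).symm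
  have h1 := hpos (fun x => (57 / 100) * f x - g x) (fun x hx => by
    rw [hf x hx, hgs x hx]; norm_num)
  have h2 := hup g hgs
  have h3 := hup f hf
  have e1 : ∀ x, LU (up z) U (fun x => (57 / 100) * f x - g x) x = (57 / 100) * g x - k x := by
    intro x
    have : LU (up z) U (fun x => (57 / 100) * f x - g x) =
        (57 / 100 : ℝ) • LU (up z) U f - LU (up z) U g := by
      rw [← map_smul, ← map_sub]
      rfl
    rw [this, ← hg, ← hk]
    rfl
  have e2 : ∀ x, ((57 / 100) * f x - g x) * ((57 / 100) * g x - k x) =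
      (57 / 100) ^ 2 * (f x * g x) - (57 / 100) * (f x * k x) - (57 / 100) * g x ^ 2 +
        g x * k x := fun x => by ring
  simp only [e1, e2, sum_add_distrib, sum_sub_distrib, ← mul_sum] at h1
  rw [hfk] at h1
  rw [← hk] at h2
  rw [← hg] at h3 ⊢
  linarith

theorem LU_pow (hK : 1 ≤ K) (z : Fin K → Alt n) (h : TupleGap z 1 (9 / 10))
    (U : Finset (Fin n)) (hU : 50 * U.card ≤ n) (k : ℕ) (f : Fin n → ℝ)
    (hf : ∀ x ∉ U, f x = 0) :
    ∑ x, ((LU (up z) U) ^ k) f x ^ 2 ≤ ((57 / 100) ^ k) ^ 2 * ∑ x, f x ^ 2 := by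
  induction k generalizing f with
  | zero => simp
  | succ k ih =>
    have h1 : ((LU (up z) U) ^ (k + 1)) f = ((LU (up z) U) ^ k) (LU (up z) U f) := by
      rw [pow_succ]; rfl
    rw [h1]
    refine (ih _ (LU_supp _ U f hf)).trans ?_
    calc ((57 / 100 : ℝ) ^ k) ^ 2 * ∑ x, LU (up z) U f x ^ 2 ≤
        ((57 / 100) ^ k) ^ 2 * ((57 / 100) ^ 2 * ∑ x, f x ^ 2) :=
          mul_le_mul_of_nonneg_left (LU_norm hK z h U hU f hf) (by positivity)
      _ = ((57 / 100) ^ (k + 1)) ^ 2 * ∑ x, f x ^ 2 := by ring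

/-- the indicator function -/
noncomputable def ind (U : Finset (Fin n)) (x : Fin n) : ℝ := if x ∈ U then 1 else 0

theorem WU_nonneg (z : Fin K → Perm (Fin n)) (U : Finset (Fin n)) (f : Fin n → ℝ)
    (hf : ∀ x, 0 ≤ f x) (x : Fin n) : 0 ≤ WU z U f x := by
  rw [WU_apply]
  split_ifs
  · exact mul_nonneg (by positivity) (sum_nonneg fun l _ => hf _)
  · exact le_rfl

theorem WU_pow_nonneg (z : Fin K → Perm (Fin n)) (U : Finset (Fin n)) (k : ℕ) (x : Fin n) :
    0 ≤ ((WU z U) ^ k) (ind U) x := by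
  induction k generalizing x with
  | zero =>
    simp only [pow_zero, Module.End.one_apply, ind]
    split_ifs <;> norm_num
  | succ k ih =>
    have h1 : ((WU z U) ^ (k + 1)) (ind U) = WU z U (((WU z U) ^ k) (ind U)) := by
      rw [pow_succ']; rfl
    rw [h1]
    exact WU_nonneg z U _ ih x

theorem cmp (z : Fin K → Perm (Fin n)) (U : Finset (Fin n)) (m : ℕ) (x : Fin n) :
    ((WU z U) ^ m) (ind U) x ≤ (2 * m + 1) * ((LU z U) ^ (2 * m)) (ind U) x := by
  have h1 : (LU z U) ^ (2 * m) = ((1 / 2 : ℝ) ^ (2 * m)) •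
      ∑ j ∈ range (2 * m + 1), (WU z U) ^ j * 1 ^ (2 * m - j) * ((2 * m).choose j : ℕ) := by
    rw [LU, smul_pow, (Commute.one_right (WU z U)).add_pow]
  have h2 : ((LU z U) ^ (2 * m)) (ind U) x = (1 / 2 : ℝ) ^ (2 * m) *
      ∑ j ∈ range (2 * m + 1), ((2 * m).choose j : ℝ) * ((WU z U) ^ j) (ind U) x := by
    rw [h1, LinearMap.smul_apply, Pi.smul_apply, smul_eq_mul, LinearMap.sum_apply,
      Finset.sum_apply]
    congr 1
    refine sum_congr rfl fun j _ => ?_
    rw [one_pow, mul_one, (Nat.cast_commute _ _).symm.eq, Module.End.mul_apply,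
      Module.End.natCast_apply, Pi.smul_apply, nsmul_eq_mul]
  have h3 : ((2 * m).choose m : ℝ) * ((WU z U) ^ m) (ind U) x ≤
      ∑ j ∈ range (2 * m + 1), ((2 * m).choose j : ℝ) * ((WU z U) ^ j) (ind U) x :=
    single_le_sum (f := fun j => ((2 * m).choose j : ℝ) * ((WU z U) ^ j) (ind U) x)
      (fun j _ => mul_nonneg (Nat.cast_nonneg _) (WU_pow_nonneg z U j x))
      (mem_range.2 (by omega))
  have h4 : (4 : ℝ) ^ m ≤ (2 * m + 1) * ((2 * m).choose m : ℝ) := by
    exact_mod_cast Nat.four_pow_le_two_mul_add_one_mul_central_binom m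
  have h5 : (1 / 2 : ℝ) ^ (2 * m) * 4 ^ m = 1 := by
    rw [pow_mul, ← mul_pow]
    norm_num
  have h0 := WU_pow_nonneg z U m x
  rw [h2]
  calc ((WU z U) ^ m) (ind U) x = (1 / 2 : ℝ) ^ (2 * m) * (4 ^ m * ((WU z U) ^ m) (ind U) x) := by
        rw [← mul_assoc, h5, one_mul]
    _ ≤ (1 / 2 : ℝ) ^ (2 * m) * (((2 * m + 1) * ((2 * m).choose m : ℝ)) *
          ((WU z U) ^ m) (ind U) x) := by
        gcongr
    _ = (1 / 2 : ℝ) ^ (2 * m) * ((2 * m + 1) * (((2 * m).choose m : ℝ) *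
          ((WU z U) ^ m) (ind U) x)) := by ring
    _ ≤ (1 / 2 : ℝ) ^ (2 * m) * ((2 * m + 1) * ∑ j ∈ range (2 * m + 1),
          ((2 * m).choose j : ℝ) * ((WU z U) ^ j) (ind U) x) := by
        gcongr
    _ = _ := by ring

open Classical in
theorem count_stay (hK : 1 ≤ K) (z : Fin K → Perm (Fin n)) (U : Finset (Fin n)) (m : ℕ)
    (p : Fin n) :
    ((univ.filter fun v : Fin m → Lt K =>
      ∀ t ≤ m, run z ((List.ofFn v).take t) p ∈ U).card : ℝ) =
      (2 * K) ^ m * ((WU z U) ^ m) (ind U) p := by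
  have hK' : (0 : ℝ) < 2 * K := by positivity
  induction m generalizing p with
  | zero =>
    simp only [pow_zero, Module.End.one_apply, one_mul, ind]
    by_cases hp : p ∈ U
    · simp [run, hp]
    · simp [run, hp]
  | succ m ih =>
    have h1 : ((WU z U) ^ (m + 1)) (ind U) = WU z U (((WU z U) ^ m) (ind U)) := by
      rw [pow_succ']; rfl
    rw [h1, WU_apply]
    by_cases hp : p ∈ U
    · rw [if_pos hp, wlk]
      have h2 : ((univ.filter fun v : Fin (m + 1) → Lt K =>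
          ∀ t ≤ m + 1, run z ((List.ofFn v).take t) p ∈ U).card : ℝ) =
          ∑ l : Lt K, ((univ.filter fun v : Fin m → Lt K =>
            ∀ t ≤ m, run z ((List.ofFn v).take t) (act z l p) ∈ U).card : ℝ) := by
        have e : (univ.filter fun v : Fin (m + 1) → Lt K =>
            ∀ t ≤ m + 1, run z ((List.ofFn v).take t) p ∈ U).card =
            ∑ l : Lt K, (univ.filter fun v : Fin m → Lt K =>
              ∀ t ≤ m, run z ((List.ofFn v).take t) (act z l p) ∈ U).card := by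
          rw [card_filter, ← (Fin.consEquiv fun _ => Lt K).sum_comp, Fintype.sum_prod_type]
          refine sum_congr rfl fun l _ => ?_
          rw [card_filter]
          refine sum_congr rfl fun v _ => if_congr ?_ rfl rfl
          have e3 : List.ofFn ((Fin.consEquiv fun _ => Lt K) (l, v)) = l :: List.ofFn v := by
            rw [List.ofFn_succ]
            rfl
          rw [e3]
          constructor
          · intro h t ht
            exact h (t + 1) (by omega)
          · intro h t ht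
            cases t with
            | zero => exact hp
            | succ t => exact h t (by omega)
        rw [e]
        push_cast
        rfl
      rw [h2]
      simp only [ih]
      rw [← mul_sum, pow_succ, mul_assoc, ← mul_assoc (2 * (K : ℝ)) (2 * (K : ℝ))⁻¹,
        mul_inv_cancel₀ hK'.ne', one_mul]
    · rw [if_neg hp, mul_zero, Nat.cast_eq_zero, card_eq_zero, filter_eq_empty_iff]
      intro v _ h
      exact hp (h 0 (Nat.zero_le _))

theorem stay : S_STAY := by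
  intro n K m hK z hg U hU p
  have h1 := count_stay hK (up z) U m p
  have h2 : ((LU (up z) U) ^ (2 * m)) (ind U) p ≤ Real.sqrt n * (57 / 100) ^ (2 * m) := by
    have h3 := LU_pow hK z hg U hU (2 * m) (ind U) (fun x hx => by simp [ind, hx])
    have h4 : ((LU (up z) U) ^ (2 * m)) (ind U) p ^ 2 ≤
        ∑ x, ((LU (up z) U) ^ (2 * m)) (ind U) x ^ 2 :=
      single_le_sum (f := fun x => ((LU (up z) U) ^ (2 * m)) (ind U) x ^ 2)
        (fun x _ => sq_nonneg _) (mem_univ p)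
    have h5 : ∑ x, ind U x ^ 2 ≤ (n : ℝ) := by
      calc ∑ x, ind U x ^ 2 ≤ ∑ _x : Fin n, (1 : ℝ) := by
            refine sum_le_sum fun x _ => ?_
            simp only [ind]
            split_ifs <;> norm_num
        _ = n := by simp
    refine abs_le_of_sq_le_sq' ?_ (by positivity) |>.2
    rw [mul_pow, Real.sq_sqrt (Nat.cast_nonneg _)]
    refine h4.trans (h3.trans ?_)
    rw [mul_comm (n : ℝ)]
    exact mul_le_mul_of_nonneg_left h5 (by positivity)
  have h3 := cmp (up z) U m p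
  refine (le_of_eq ?_).trans (mul_le_mul_of_nonneg_left (h3.trans
    (mul_le_mul_of_nonneg_left h2 (by positivity))) (by positivity : (0:ℝ) ≤ (2 * K) ^ m)) |>.trans
      (le_of_eq ?_)
  · convert h1
  · ring

end Pool.Agent.Helper33.FS
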