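import Pool.Agent.Helper86.FS.StartGoals
import Pool.Agent.Helper86.FS.StartEqv

/-! # Project FS (MP_75608d_al), part START: packet DET -/

set_option autoImplicit false

namespace Pool.Agent.Helper33.FS

open Equiv Pool.Agent.Helper3.AK Pool.Agent.Helper86.FS

theorem det : DETStmt := by
  classical
  intro n b m M c y τ D S ω hτ
  have h : cw c y (W0 D ω) ⊆ (Finset.univ.filter fun j : Fin M =>
      ∃ e ∈ Ex D S (mv y τ ω), (mv y τ ω).1 e.1 e.2.1 = c (j, false)) ∪ PR c y τ D S ω := by
    intro j hj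
    rw [Finset.mem_union]
    by_cases hP : j ∈ PR c y τ D S ω
    · exact Or.inr hP
    left
    rw [mem_cw] at hj
    obtain ⟨e, a', he, h1, h2, -⟩ := (mem_W0 D ω _).1 hj
    have h3 : (mv y τ ω).1 e.1 e.2.1 = c (j, false) := by
      rw [mv_fst, h1]
      exact y.apply_symm_apply _
    have h4 : U (mv y τ ω) e = some a' := by
      unfold U
      rw [h3, tok_eq_some, mv_snd, h2]
      have : y (pq c y j).2 = c (j, true) := y.apply_symm_apply _
      rw [this, hτ.1 j true]
      rfl
    rw [Finset.mem_filter]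
    refine ⟨Finset.mem_univ _, e, ?_, h3⟩
    rw [mem_Ex]
    refine ⟨he, a', h4, fun h5 => hP ?_⟩
    rw [mem_PR]
    exact ⟨hj, e, a', he, h1, h2, h5⟩
  refine (Finset.card_le_card h).trans ((Finset.card_union_le _ _).trans (le_of_eq ?_))
  unfold NN
  congr

end Pool.Agent.Helper33.FS
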