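import Mathlib

/-!
# Project FS (MP_75608d_al), FIXB: short words of random permutations have few fixed points

`fixb`: for `z : Fin K → Perm (Fin n)` uniform, the probability that some non-trivial freely
reduced word of length at most `C₀ log n` has at least `n ^ φ` fixed points is at most `n ^ (-c)`.
-/

namespace Pool.Agent.Helper33.FS

open Equiv Finset

variable {n K : ℕ}

/-- letters: `(i, true)` is `z i`, `(i, false)` is `(z i)⁻¹` -/
abbrev Lt (K : ℕ) := Fin K × Bool

/-- inverse letter -/
def flip (l : Lt K) : Lt K := (l.1, !l.2)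

/-- the permutation of a letter -/
def act (z : Fin K → Perm (Fin n)) (l : Lt K) : Perm (Fin n) :=
  if l.2 then z l.1 else (z l.1)⁻¹

/-- the permutation of a word, the head is applied first -/
def ev (z : Fin K → Perm (Fin n)) : List (Lt K) → Perm (Fin n)
  | [] => 1
  | l :: w => ev z w * act z l

/-- freely reduced -/
def Red (w : List (Lt K)) : Prop := w.IsChain fun a b => b ≠ flip a

/-- positions along an infinite word -/
def pz (z : Fin K → Perm (Fin n)) (g : ℕ → Lt K) : ℕ → Perm (Fin n)
  | 0 => 1
  | t + 1 => act z (g t) * pz z g t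

/-- reduced up to time `l` -/
def RedF (g : ℕ → Lt K) (l : ℕ) : Prop := ∀ t, t + 1 < l → g (t + 1) ≠ flip (g t)

/-! ### counting tuples of permutations with prescribed values -/

theorem card_constr (C : Finset (Fin K × Fin n × Fin n)) :
    (univ.filter fun z : Fin K → Perm (Fin n) => ∀ c ∈ C, z c.1 c.2.1 = c.2.2).card *
      ∏ h ∈ range C.card, (n - h) ≤ Nat.factorial n ^ K := by
  classical
  induction C using Finset.induction_on with
  | empty =>
    simp [Fintype.card_perm]
  | insert c C hc ih =>
    rw [card_insert_of_notMem hc, prod_range_succ]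
    obtain ⟨k, p, q⟩ := c
    set A := univ.filter fun z : Fin K → Perm (Fin n) => ∀ c ∈ C, z c.1 c.2.1 = c.2.2 with hA
    set B := univ.filter fun z : Fin K → Perm (Fin n) =>
      ∀ c ∈ insert (k, p, q) C, z c.1 c.2.1 = c.2.2 with hB
    set U : Finset (Fin n) := univ \ (C.image fun c => c.2.2) with hU
    have hUc : n - C.card ≤ U.card := by
      rw [hU, card_sdiff_of_subset (subset_univ _), card_univ, Fintype.card_fin]
      exact Nat.sub_le_sub_left card_image_le _
    have hkey : B.card * U.card ≤ A.card := by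
      rw [← card_product]
      refine card_le_card_of_injOn
        (fun zu => Function.update zu.1 k (swap q zu.2 * zu.1 k)) ?_ ?_
      · rintro ⟨z, u⟩ hzu
        simp only [coe_product, Set.mem_prod, mem_coe] at hzu
        obtain ⟨hz, hu⟩ := hzu
        rw [hB, mem_filter] at hz
        have hz' := hz.2
        rw [hU, mem_sdiff] at hu
        simp only [hA, coe_filter, mem_univ, true_and, Set.mem_ofPred_eq]
        intro d hd
        have hzd := hz' d (mem_insert_of_mem hd)
        have hzc := hz' (k, p, q) (mem_insert_self _ _)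
        by_cases hk : d.1 = k
        · subst hk
          rw [Function.update_self, Perm.mul_apply, hzd]
          refine swap_apply_of_ne_of_ne ?_ ?_
          · intro h
            have h1 : z d.1 d.2.1 = z d.1 p := by rw [hzd, h]; exact hzc.symm
            have h2 := (z d.1).injective h1
            apply hc
            have : ((d.1, p, q) : Fin K × Fin n × Fin n) = d := by
              rw [← h2, ← h]
            rw [this]
            exact hd
          · intro h
            apply hu.2
            rw [mem_image]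
            exact ⟨d, hd, h⟩
        · rw [Function.update_of_ne hk]
          exact hzd
      · rintro ⟨z, u⟩ hzu ⟨z', u'⟩ hzu' he
        simp only [coe_product, Set.mem_prod, mem_coe] at hzu hzu'
        have hz := (mem_filter.1 hzu.1).2 (k, p, q) (mem_insert_self _ _)
        have hz' := (mem_filter.1 hzu'.1).2 (k, p, q) (mem_insert_self _ _)
        simp only at hz hz' he
        have h1 : swap q u * z k = swap q u' * z' k := by
          have := congrFun he k
          simpa using this
        have h2 : u = u' := by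
          have := congrArg (fun σ : Perm (Fin n) => σ p) h1
          simp only [Perm.mul_apply, hz, hz', swap_apply_left] at this
          exact this
        subst h2
        have h3 : z k = z' k := mul_left_cancel h1
        have h4 : z = z' := by
          funext i
          by_cases hi : i = k
          · subst hi; exact h3
          · have := congrFun he i
            rwa [Function.update_of_ne hi, Function.update_of_ne hi] at this
        rw [h4]
    calc B.card * ((∏ h ∈ range C.card, (n - h)) * (n - C.card))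
        = (B.card * (n - C.card)) * ∏ h ∈ range C.card, (n - h) := by ring
      _ ≤ A.card * ∏ h ∈ range C.card, (n - h) :=
        Nat.mul_le_mul_right _ ((Nat.mul_le_mul_left _ hUc).trans hkey)
      _ ≤ Nat.factorial n ^ K := ih

theorem card_constr' {m : ℕ} (C : Finset (Fin K × Fin n × Fin n)) (hm : C.card = m) :
    (univ.filter fun z : Fin K → Perm (Fin n) => ∀ c ∈ C, z c.1 c.2.1 = c.2.2).card *
      (n - m) ^ m ≤ Nat.factorial n ^ K := by
  refine le_trans (Nat.mul_le_mul_left _ ?_) (card_constr C)
  rw [hm]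
  calc (n - m) ^ m = ∏ _h ∈ range m, (n - m) := by simp
    _ ≤ ∏ h ∈ range m, (n - h) :=
      prod_le_prod' fun h hh => Nat.sub_le_sub_left (mem_range.1 hh).le _

/-! ### lollipops -/

section Loll

variable {s : ℕ} (j i : Fin s → ℕ) (hij : ∀ a, i a < j a)

/-- next index along the paths -/
def nx (p : Σ a, Fin (j a)) : Σ a, Fin (j a) :=
  if h : p.2.val + 1 < j p.1 then ⟨p.1, ⟨p.2.val + 1, h⟩⟩ else ⟨p.1, ⟨i p.1, hij p.1⟩⟩

/-- the labelled edge used at the index `p` -/
def trip (g : ℕ → Lt K) (f : (Σ a, Fin (j a)) → Fin n) (p : Σ a, Fin (j a)) :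
    Fin K × Fin n × Fin n :=
  if (g p.2).2 then ((g p.2).1, f p, f (nx j i hij p)) else ((g p.2).1, f (nx j i hij p), f p)

theorem nx_cases (p : Σ a, Fin (j a)) :
    (nx j i hij p).1 = p.1 ∧ ((p.2.val + 1 < j p.1 ∧ (nx j i hij p).2.val = p.2.val + 1) ∨
      (p.2.val + 1 = j p.1 ∧ (nx j i hij p).2.val = i p.1)) := by
  by_cases h : p.2.val + 1 < j p.1
  · rw [nx, dif_pos h]
    exact ⟨rfl, Or.inl ⟨h, rfl⟩⟩
  · rw [nx, dif_neg h]
    have := p.2.isLt
    exact ⟨rfl, Or.inr ⟨by omega, rfl⟩⟩

theorem flip_flip' (l : Lt K) : flip (flip l) = l := by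
  simp [flip]

theorem nx_absurd {g : ℕ → Lt K} {l : ℕ} (hg : RedF g l) (hj : ∀ a, j a ≤ l)
    {p p' : Σ a, Fin (j a)} (h1 : nx j i hij p' = p) (h2 : nx j i hij p = p')
    (h3 : g p.2 = flip (g p'.2)) : False := by
  have c1 := nx_cases j i hij p'
  have c2 := nx_cases j i hij p
  rw [h1] at c1
  rw [h2] at c2
  obtain ⟨e1, c1⟩ := c1
  obtain ⟨_, c2⟩ := c2
  have hja := hj p.1
  have ejj : j p.1 = j p'.1 := by rw [e1]
  rcases c1 with ⟨a1, a2⟩ | ⟨a1, a2⟩ <;> rcases c2 with ⟨b1, b2⟩ | ⟨b1, b2⟩
  · omega
  · refine hg p'.2.val (by omega) ?_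
    rw [← a2]
    exact h3
  · refine hg p.2.val (by omega) ?_
    rw [← b2, h3, flip_flip']
  · have e : p.2.val = p'.2.val := by omega
    rw [e] at h3
    have := congrArg Prod.snd h3
    simp [flip] at this

theorem trip_inj {g : ℕ → Lt K} {l : ℕ} (hg : RedF g l) (hj : ∀ a, j a ≤ l)
    {f : (Σ a, Fin (j a)) → Fin n} (hf : Function.Injective f) :
    Function.Injective (trip j i hij g f) := by
  intro p p' h
  unfold trip at h
  by_cases h1 : (g p.2).2 = true <;> by_cases h2 : (g p'.2).2 = true
  · simp only [h1, h2, if_true] at h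
    exact hf (Prod.ext_iff.1 (Prod.ext_iff.1 h).2).1
  · simp only [h1, if_true, h2] at h
    have hh := Prod.ext_iff.1 h
    have hh2 := Prod.ext_iff.1 hh.2
    simp only at hh hh2
    exfalso
    refine nx_absurd j i hij hg hj (p := p) (p' := p') (hf hh2.1).symm (hf hh2.2) ?_
    refine Prod.ext hh.1 ?_
    simp only [flip, h1]
    simp only [Bool.not_eq_true] at h2
    rw [h2]
    rfl
  · simp only [h1, if_true, h2] at h
    have hh := Prod.ext_iff.1 h
    have hh2 := Prod.ext_iff.1 hh.2
    simp only at hh hh2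
    exfalso
    refine nx_absurd j i hij hg hj (p := p) (p' := p') (hf hh2.2).symm (hf hh2.1) ?_
    refine Prod.ext hh.1 ?_
    simp only [flip, h2]
    simp only [Bool.not_eq_true] at h1
    rw [h1]
    rfl
  · simp only [h1, h2] at h
    exact hf (Prod.ext_iff.1 (Prod.ext_iff.1 h).2).2

theorem act_iff (z : Fin K → Perm (Fin n)) (l : Lt K) (u v : Fin n) :
    act z l u = v ↔ (if l.2 then z l.1 u = v else z l.1 v = u) := by
  unfold act
  by_cases h : l.2 = true
  · simp [h]
  · simp only [h]
    simp only [Bool.false_eq_true, if_false]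
    rw [Perm.inv_eq_iff_eq]
    exact eq_comm

open Classical in
/-- the starting tuples of `s` disjoint lollipops of types `(j, i)` -/
noncomputable def loll (g : ℕ → Lt K) (z : Fin K → Perm (Fin n)) : Finset (Fin s → Fin n) :=
  univ.filter fun x => Function.Injective (fun p : Σ a, Fin (j a) => pz z g p.2 (x p.1)) ∧
    ∀ a, pz z g (j a) (x a) = pz z g (i a) (x a)

include hij in
theorem card_loll {g : ℕ → Lt K} {l : ℕ} (hg : RedF g l) (hj : ∀ a, j a ≤ l) {m : ℕ}
    (hm : ∑ a, j a = m) :
    (∑ z : Fin K → Perm (Fin n), (loll j i g z).card) * (n - m) ^ m ≤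
      n ^ m * Nat.factorial n ^ K := by
  classical
  have hIc : Fintype.card (Σ a, Fin (j a)) = m := by
    rw [Fintype.card_sigma]; simpa using hm
  set Fi : Finset ((Σ a, Fin (j a)) → Fin n) := univ.filter Function.Injective with hFi
  set S : ((Σ a, Fin (j a)) → Fin n) → Finset (Fin K → Perm (Fin n)) := fun f =>
    univ.filter fun z => ∀ c ∈ univ.image (trip j i hij g f), z c.1 c.2.1 = c.2.2 with hS
  have hz : ∀ z : Fin K → Perm (Fin n), (loll j i g z).card ≤
      (Fi.filter fun f => z ∈ S f).card := by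
    intro z
    refine card_le_card_of_injOn
      (fun x => fun p : Σ a, Fin (j a) => pz z g p.2 (x p.1)) ?_ ?_
    · intro x hx
      rw [mem_coe, loll, mem_filter] at hx
      obtain ⟨-, hx1, hx2⟩ := hx
      rw [mem_coe, mem_filter, hFi, mem_filter]
      refine ⟨⟨mem_univ _, hx1⟩, ?_⟩
      rw [hS]
      simp only [mem_filter, mem_univ, true_and, mem_image, forall_exists_index,
        forall_apply_eq_imp_iff]
      intro p
      have hstep : act z (g p.2) (pz z g p.2 (x p.1)) =
          pz z g (nx j i hij p).2 (x (nx j i hij p).1) := by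
        have e : act z (g p.2) (pz z g p.2 (x p.1)) = pz z g (p.2.val + 1) (x p.1) := rfl
        rw [e]
        obtain ⟨c0, c⟩ := nx_cases j i hij p
        have key : ∀ (q : Σ a, Fin (j a)) (v : ℕ), q.1 = p.1 → q.2.val = v →
            pz z g q.2.val (x q.1) = pz z g v (x p.1) := by
          intro q v h1 h2
          rw [h2, h1]
        rcases c with ⟨_, c2⟩ | ⟨c1, c2⟩
        · rw [key _ _ c0 c2]
        · rw [key _ _ c0 c2, c1]
          exact hx2 p.1
      rw [act_iff] at hstep
      unfold trip
      by_cases h : (g p.2).2 = true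
      · simp only [h, if_true] at hstep ⊢
        exact hstep
      · simp only [h] at hstep ⊢
        simp only [Bool.false_eq_true, if_false] at hstep ⊢
        exact hstep
    · intro x hx x' hx' he
      funext a
      have h0 : 0 < j a := lt_of_le_of_lt (Nat.zero_le _) (hij a)
      have := congrFun he ⟨a, ⟨0, h0⟩⟩
      simpa [pz] using this
  have hf : ∀ f ∈ Fi, (S f).card * (n - m) ^ m ≤ Nat.factorial n ^ K := by
    intro f hf
    refine card_constr' _ ?_
    rw [card_image_of_injective _ (trip_inj j i hij hg hj (mem_filter.1 hf).2), card_univ, hIc]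
  have hFc : Fi.card ≤ n ^ m := by
    refine (card_filter_le _ _).trans ?_
    rw [card_univ, Fintype.card_fun, hIc, Fintype.card_fin]
  calc (∑ z : Fin K → Perm (Fin n), (loll j i g z).card) * (n - m) ^ m
      ≤ (∑ z : Fin K → Perm (Fin n), (Fi.filter fun f => z ∈ S f).card) * (n - m) ^ m :=
        Nat.mul_le_mul_right _ (sum_le_sum fun z _ => hz z)
    _ = (∑ f ∈ Fi, (S f).card) * (n - m) ^ m := by
        congr 1
        simp only [card_filter]
        rw [sum_comm]
        refine sum_congr rfl fun f _ => ?_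
        rw [← card_filter]
        congr 1
        ext z
        simp
    _ = ∑ f ∈ Fi, (S f).card * (n - m) ^ m := by rw [sum_mul]
    _ ≤ ∑ _f ∈ Fi, Nat.factorial n ^ K := sum_le_sum hf
    _ = Fi.card * Nat.factorial n ^ K := by rw [sum_const, smul_eq_mul]
    _ ≤ n ^ m * Nat.factorial n ^ K := Nat.mul_le_mul_right _ hFc

end Loll

/-! ### extraction of disjoint lollipops -/

open Classical in
theorem greedy {α : Type*} [Fintype α] (X : Finset α) (R : α → α → Prop) (D : ℕ)
    (hD : ∀ x, (X.filter fun y => R x y).card ≤ D) (s : ℕ) :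
    (X.card - s * D) ^ s ≤ (univ.filter fun x : Fin s → α =>
      (∀ a, x a ∈ X) ∧ ∀ a b, a < b → ¬ R (x b) (x a)).card := by
  induction s with
  | zero =>
    rw [pow_zero]
    refine Nat.one_le_iff_ne_zero.2 (card_ne_zero.2 ⟨fun a => a.elim0,
      mem_filter.2 ⟨mem_univ _, fun a => a.elim0, fun a => a.elim0⟩⟩)
  | succ s ih =>
    set A := univ.filter fun x : Fin s → α =>
      (∀ a, x a ∈ X) ∧ ∀ a b, a < b → ¬ R (x b) (x a) with hA
    have h1 : (X.card - (s + 1) * D) ^ s ≤ A.card :=
      (Nat.pow_le_pow_left (Nat.sub_le_sub_left (Nat.mul_le_mul_right _ (Nat.le_succ s)) _)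
        _).trans ih
    have h2 : ∀ x ∈ A, X.card - (s + 1) * D ≤
        (X.filter fun y => ∀ b, ¬ R (x b) y).card := by
      intro x _
      have h3 : X ⊆ (X.filter fun y => ∀ b, ¬ R (x b) y) ∪
          (univ : Finset (Fin s)).biUnion fun b => X.filter fun y => R (x b) y := by
        intro y hy
        by_cases h : ∀ b, ¬ R (x b) y
        · exact mem_union_left _ (mem_filter.2 ⟨hy, h⟩)
        · push Not at h
          obtain ⟨b, hb⟩ := h
          exact mem_union_right _ (mem_biUnion.2 ⟨b, mem_univ _, mem_filter.2 ⟨hy, hb⟩⟩)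
      have h4 := (card_le_card h3).trans (card_union_le _ _)
      have h5 : ((univ : Finset (Fin s)).biUnion fun b => X.filter fun y => R (x b) y).card ≤
          s * D := by
        refine card_biUnion_le.trans ?_
        refine (sum_le_sum fun b _ => hD (x b)).trans ?_
        simp
      have h6 : s * D ≤ (s + 1) * D := Nat.mul_le_mul_right _ (Nat.le_succ s)
      omega
    calc (X.card - (s + 1) * D) ^ (s + 1)
        = (X.card - (s + 1) * D) ^ s * (X.card - (s + 1) * D) := pow_succ _ _
      _ ≤ A.card * (X.card - (s + 1) * D) := Nat.mul_le_mul_right _ h1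
      _ = ∑ _x ∈ A, (X.card - (s + 1) * D) := by simp
      _ ≤ ∑ x ∈ A, (X.filter fun y => ∀ b, ¬ R (x b) y).card := sum_le_sum h2
      _ = (A.sigma fun x => X.filter fun y => ∀ b, ¬ R (x b) y).card := (card_sigma _ _).symm
      _ ≤ _ := by
        refine card_le_card_of_injOn (fun q => Fin.cons q.2 q.1) ?_ ?_
        · rintro ⟨x, y⟩ hq
          simp only [coe_sigma, Set.mem_sigma_iff, mem_coe] at hq
          obtain ⟨hx, hy⟩ := hq
          rw [hA, mem_filter] at hx
          rw [mem_filter] at hy
          simp only [coe_filter, mem_univ, true_and, Set.mem_ofPred_eq]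
          constructor
          · intro a
            refine Fin.cases ?_ (fun a => ?_) a
            · simpa using hy.1
            · simpa using hx.2.1 a
          · intro a b
            refine Fin.cases (fun h => absurd h (Fin.not_lt_zero _)) (fun b h => ?_) b
            revert h
            refine Fin.cases (fun _ => ?_) (fun a h => ?_) a
            · simpa using hy.2 b
            · simpa using hx.2.2 a b (Fin.succ_lt_succ_iff.1 h)
        · rintro ⟨x, y⟩ _ ⟨x', y'⟩ _ h
          simp only at h
          have h1 : y = y' := by simpa using congrFun h 0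
          have h2 : x = x' := by
            funext a
            simpa using congrFun h a.succ
          rw [h1, h2]

/-- the conflict relation -/
def Conf (z : Fin K → Perm (Fin n)) (g : ℕ → Lt K) (l : ℕ) (x y : Fin n) : Prop :=
  ∃ t < l, ∃ t' < l, pz z g t x = pz z g t' y

open Classical in
theorem conf_card (z : Fin K → Perm (Fin n)) (g : ℕ → Lt K) (l : ℕ) (X : Finset (Fin n))
    (x : Fin n) : (X.filter fun y => Conf z g l x y).card ≤ l ^ 2 := by
  have h : (X.filter fun y => Conf z g l x y) ⊆ ((range l) ×ˢ (range l)).image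
      fun q => (pz z g q.2)⁻¹ (pz z g q.1 x) := by
    intro y hy
    obtain ⟨-, t, ht, t', ht', h⟩ := mem_filter.1 hy
    rw [mem_image]
    refine ⟨(t, t'), by simp [ht, ht'], ?_⟩
    simp only
    rw [h]
    simp
  refine (card_le_card h).trans (card_image_le.trans ?_)
  rw [card_product, card_range, sq]

theorem exists_type (z : Fin K → Perm (Fin n)) (g : ℕ → Lt K) {l : ℕ} (hl : 1 ≤ l) (x : Fin n)
    (hx : pz z g l x = x) : ∃ i j, i < j ∧ j ≤ l ∧ pz z g j x = pz z g i x ∧
      ∀ t < j, ∀ t' < j, pz z g t x = pz z g t' x → t = t' := by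
  classical
  have hex : ∃ j, ∃ i, i < j ∧ pz z g j x = pz z g i x := ⟨l, 0, hl, by simpa [pz] using hx⟩
  obtain ⟨i, hi, he⟩ := Nat.find_spec hex
  refine ⟨i, Nat.find hex, hi, Nat.find_min' hex ⟨0, hl, by simpa [pz] using hx⟩, he, ?_⟩
  intro t ht t' ht' h
  by_contra hne
  rcases lt_or_gt_of_ne hne with h1 | h1
  · exact Nat.find_min hex ht' ⟨t, h1, h.symm⟩
  · exact Nat.find_min hex ht ⟨t', h1, h⟩

/-- the possible types -/
def types (l : ℕ) : Finset (ℕ × ℕ) :=
  ((range (l + 1)) ×ˢ (range l)).filter fun q => q.2 < q.1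

open Classical in
theorem extract (z : Fin K → Perm (Fin n)) (g : ℕ → Lt K) {l : ℕ} (hl : 1 ≤ l) (s : ℕ) :
    ((univ.filter fun x => pz z g l x = x).card - s * l ^ 2) ^ s ≤
      ∑ τ ∈ Fintype.piFinset fun _ : Fin s => types l,
        (loll (fun a => (τ a).1) (fun a => (τ a).2) g z).card := by
  refine (greedy _ (Conf z g l) (l ^ 2) (fun x => conf_card z g l _ x) s).trans ?_
  rw [← card_sigma]
  have hch : ∀ x : Fin n, pz z g l x = x → ∃ q ∈ types l, pz z g q.1 x = pz z g q.2 x ∧
      ∀ t < q.1, ∀ t' < q.1, pz z g t x = pz z g t' x → t = t' := by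
    intro x hx
    obtain ⟨i, j, h1, h2, h3, h4⟩ := exists_type z g hl x hx
    exact ⟨(j, i), by simp [types]; omega, h3, h4⟩
  choose! τ hτ using hch
  refine card_le_card_of_injOn (fun x => ⟨fun a => τ (x a), x⟩) ?_ ?_
  · intro x hx
    simp only [coe_filter, mem_univ, true_and, Set.mem_ofPred_eq, mem_filter] at hx
    obtain ⟨hx1, hx2⟩ := hx
    simp only [coe_sigma, Set.mem_sigma_iff, mem_coe, Fintype.mem_piFinset]
    refine ⟨fun a => (hτ _ (hx1 a)).1, ?_⟩
    rw [loll, mem_filter]
    refine ⟨mem_univ _, ?_, fun a => (hτ _ (hx1 a)).2.1⟩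
    rintro ⟨a, t⟩ ⟨b, t'⟩ h
    simp only at h
    have hlt : ∀ a, (τ (x a)).1 ≤ l := by
      intro a
      have := (hτ _ (hx1 a)).1
      simp only [types, mem_filter, mem_product, mem_range] at this
      omega
    have hta := t.isLt
    have htb := t'.isLt
    have hab : a = b := by
      by_contra hne
      rcases lt_or_gt_of_ne hne with h1 | h1
      · exact hx2 a b h1 ⟨t', htb.trans_le (hlt b), t, hta.trans_le (hlt a), h.symm⟩
      · exact hx2 b a h1 ⟨t, hta.trans_le (hlt a), t', htb.trans_le (hlt b), h⟩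
    subst hab
    have : t.val = t'.val := (hτ _ (hx1 a)).2.2 _ hta _ htb h
    have : t = t' := Fin.ext this
    rw [this]
  · intro x _ x' _ h
    simp only [Sigma.mk.injEq] at h
    exact eq_of_heq h.2

theorem types_card (l : ℕ) : (types l).card ≤ (l + 1) * l := by
  refine (card_filter_le _ _).trans ?_
  simp

theorem bern {n m : ℕ} (h : 2 * m ^ 2 ≤ n) : n ^ m ≤ 2 * (n - m) ^ m := by
  rcases Nat.eq_zero_or_pos m with hm | hm
  · subst hm; simp
  have hmn : m ≤ n := by nlinarith
  have hn : 0 < n := by omega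
  have h1 : (1 + (m : ℝ) * (-(m / n))) ≤ (1 + (-(m / n : ℝ))) ^ m := by
    refine one_add_mul_le_pow ?_ m
    have : (m : ℝ) / n ≤ 1 := by
      rw [div_le_one (by positivity)]
      exact_mod_cast hmn
    linarith
  have h2 : (m : ℝ) * (m / n) ≤ 1 / 2 := by
    rw [← mul_div_assoc, div_le_div_iff₀ (by positivity) (by norm_num)]
    have : (2 * m ^ 2 : ℝ) ≤ n := by exact_mod_cast h
    nlinarith
  have h3 : (1 / 2 : ℝ) ≤ (1 + (-(m / n : ℝ))) ^ m := by linarith
  have h4 : (1 + (-(m / n : ℝ))) = ((n - m : ℕ) : ℝ) / n := by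
    rw [Nat.cast_sub hmn]
    field_simp
    ring
  rw [h4, div_pow, div_le_div_iff₀ (by norm_num) (by positivity)] at h3
  have : ((n ^ m : ℕ) : ℝ) ≤ ((2 * (n - m) ^ m : ℕ) : ℝ) := by
    push_cast
    linarith
  exact_mod_cast this

/-- the moment bound for one word -/
theorem moment (g : ℕ → Lt K) {l : ℕ} (hl : 1 ≤ l) (hg : RedF g l) (s F₀ : ℕ)
    (hn : 2 * (s * l) ^ 2 ≤ n) (hn1 : s * l < n) :
    (univ.filter fun z : Fin K → Perm (Fin n) =>
      F₀ ≤ (univ.filter fun x => pz z g l x = x).card).card * (F₀ - s * l ^ 2) ^ s ≤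
      2 * ((l + 1) * l) ^ s * Nat.factorial n ^ K := by
  classical
  set B := univ.filter fun z : Fin K → Perm (Fin n) =>
      F₀ ≤ (univ.filter fun x => pz z g l x = x).card with hB
  have h1 : B.card * (F₀ - s * l ^ 2) ^ s ≤ ∑ z : Fin K → Perm (Fin n),
      ∑ τ ∈ Fintype.piFinset fun _ : Fin s => types l,
        (loll (fun a => (τ a).1) (fun a => (τ a).2) g z).card := by
    calc B.card * (F₀ - s * l ^ 2) ^ s = ∑ _z ∈ B, (F₀ - s * l ^ 2) ^ s := by simp
      _ ≤ ∑ z ∈ B, ∑ τ ∈ Fintype.piFinset fun _ : Fin s => types l,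
        (loll (fun a => (τ a).1) (fun a => (τ a).2) g z).card := by
          refine sum_le_sum fun z hz => ?_
          refine le_trans ?_ (extract z g hl s)
          exact Nat.pow_le_pow_left (Nat.sub_le_sub_right (mem_filter.1 hz).2 _) _
      _ ≤ _ := sum_le_sum_of_subset (subset_univ _)
  refine h1.trans ?_
  rw [sum_comm]
  have h2 : ∀ τ ∈ Fintype.piFinset fun _ : Fin s => types l,
      ∑ z : Fin K → Perm (Fin n), (loll (fun a => (τ a).1) (fun a => (τ a).2) g z).card ≤
        2 * Nat.factorial n ^ K := by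
    intro τ hτ
    rw [Fintype.mem_piFinset] at hτ
    have ht : ∀ a, (τ a).2 < (τ a).1 ∧ (τ a).1 ≤ l := by
      intro a
      have := hτ a
      simp only [types, mem_filter, mem_product, mem_range] at this
      omega
    have h3 := card_loll (n := n) (K := K) (fun a => (τ a).1) (fun a => (τ a).2)
      (fun a => (ht a).1) hg (fun a => (ht a).2) rfl
    set m := ∑ a, (τ a).1 with hm
    have hm1 : m ≤ s * l := by
      rw [hm]
      refine (sum_le_sum fun a _ => (ht a).2).trans ?_
      simp
    have hb : n ^ m ≤ 2 * (n - m) ^ m := by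
      refine bern (le_trans ?_ hn)
      exact Nat.mul_le_mul_left _ (Nat.pow_le_pow_left hm1 2)
    have hpos : 0 < (n - m) ^ m := pow_pos (by omega) _
    refine Nat.le_of_mul_le_mul_right ?_ hpos
    calc _ ≤ n ^ m * Nat.factorial n ^ K := h3
      _ ≤ 2 * (n - m) ^ m * Nat.factorial n ^ K := Nat.mul_le_mul_right _ hb
      _ = 2 * Nat.factorial n ^ K * (n - m) ^ m := by ring
  refine (sum_le_sum h2).trans ?_
  rw [sum_const, smul_eq_mul, Fintype.card_piFinset, prod_const, card_univ, Fintype.card_fin]
  calc (types l).card ^ s * (2 * Nat.factorial n ^ K)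
      ≤ ((l + 1) * l) ^ s * (2 * Nat.factorial n ^ K) :=
        Nat.mul_le_mul_right _ (Nat.pow_le_pow_left (types_card l) s)
    _ = 2 * ((l + 1) * l) ^ s * Nat.factorial n ^ K := by ring

/-! ### words as lists -/

/-- a finite word as an infinite word (`d` is a dummy letter) -/
def gl (d : Lt K) (w : List (Lt K)) (t : ℕ) : Lt K := w.getD t d

theorem pz_shift (z : Fin K → Perm (Fin n)) (g : ℕ → Lt K) (t : ℕ) :
    pz z g (t + 1) = pz z (fun u => g (u + 1)) t * act z (g 0) := by
  induction t with
  | zero => simp [pz]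
  | succ t ih =>
    rw [pz, ih, pz, mul_assoc]

theorem ev_eq_pz (z : Fin K → Perm (Fin n)) (d : Lt K) (w : List (Lt K)) :
    ev z w = pz z (gl d w) w.length := by
  induction w with
  | nil => rfl
  | cons l w ih =>
    rw [List.length_cons, pz_shift, ev, ih]
    rfl

theorem redF_gl {d : Lt K} {w : List (Lt K)} (hw : Red w) : RedF (gl d w) w.length := by
  intro t ht
  unfold Red at hw
  rw [List.isChain_iff_getElem] at hw
  have h := hw t ht
  unfold gl
  rw [List.getD_eq_getElem _ _ ht, List.getD_eq_getElem _ _ (by omega)]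
  exact h

/-- some non-trivial reduced word of length at most `J` has at least `F₀` fixed points -/
def ManyFix (J F₀ : ℕ) (z : Fin K → Perm (Fin n)) : Prop :=
  ∃ w : List (Lt K), w ≠ [] ∧ Red w ∧ w.length ≤ J ∧
    F₀ ≤ (univ.filter fun x => ev z w x = x).card

/-- the words of length at most `J` -/
def wds (K J : ℕ) : Finset (List (Lt K)) :=
  (range (J + 1)).biUnion fun l => (univ : Finset (Fin l → Lt K)).image List.ofFn

theorem mem_wds {J : ℕ} {w : List (Lt K)} (h : w.length ≤ J) : w ∈ wds K J := by
  rw [wds, mem_biUnion]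
  exact ⟨w.length, by simp; omega, mem_image.2 ⟨w.get, mem_univ _, List.ofFn_get w⟩⟩

theorem length_of_mem_wds {J : ℕ} {w : List (Lt K)} (h : w ∈ wds K J) : w.length ≤ J := by
  rw [wds, mem_biUnion] at h
  obtain ⟨l, hl, h⟩ := h
  obtain ⟨f, -, rfl⟩ := mem_image.1 h
  rw [List.length_ofFn]
  have := mem_range.1 hl
  omega

theorem wds_card (hK : 0 < K) (J : ℕ) : (wds K J).card ≤ (J + 1) * (2 * K) ^ J := by
  rw [wds]
  refine card_biUnion_le.trans ?_
  calc ∑ l ∈ range (J + 1), ((univ : Finset (Fin l → Lt K)).image List.ofFn).card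
      ≤ ∑ _l ∈ range (J + 1), (2 * K) ^ J := by
        refine sum_le_sum fun l hl => ?_
        refine card_image_le.trans ?_
        rw [card_univ, Fintype.card_fun, Fintype.card_prod, Fintype.card_fin, Fintype.card_bool,
          Fintype.card_fin, mul_comm K 2]
        have := mem_range.1 hl
        exact Nat.pow_le_pow_right (by omega) (by omega)
    _ = (J + 1) * (2 * K) ^ J := by simp

open Classical in
theorem manyFix_card (J F₀ s : ℕ) (hn : 2 * (s * J) ^ 2 ≤ n) (hn1 : s * J < n) :
    (univ.filter fun z : Fin K → Perm (Fin n) => ManyFix J F₀ z).card *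
      (F₀ - s * J ^ 2) ^ s ≤
      ((J + 1) * (2 * K) ^ J) * (2 * ((J + 1) * J) ^ s * Nat.factorial n ^ K) := by
  rcases Nat.eq_zero_or_pos K with hK | hK
  · subst hK
    have : (univ.filter fun z : Fin 0 → Perm (Fin n) => ManyFix J F₀ z) = ∅ := by
      refine filter_eq_empty_iff.2 fun z _ h => ?_
      obtain ⟨w, hw, -⟩ := h
      cases w with
      | nil => exact hw rfl
      | cons l w => exact l.1.elim0
    rw [this]
    simp
  set d : Lt K := (⟨0, hK⟩, true) with hd
  have hsub : (univ.filter fun z : Fin K → Perm (Fin n) => ManyFix J F₀ z) ⊆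
      ((wds K J).filter fun w => w ≠ [] ∧ Red w).biUnion fun w =>
        univ.filter fun z : Fin K → Perm (Fin n) =>
          F₀ ≤ (univ.filter fun x => pz z (gl d w) w.length x = x).card := by
    intro z hz
    obtain ⟨w, h1, h2, h3, h4⟩ := (mem_filter.1 hz).2
    rw [mem_biUnion]
    refine ⟨w, mem_filter.2 ⟨mem_wds h3, h1, h2⟩, mem_filter.2 ⟨mem_univ _, ?_⟩⟩
    rw [← ev_eq_pz]
    exact h4
  refine (Nat.mul_le_mul_right _ ((card_le_card hsub).trans card_biUnion_le)).trans ?_
  rw [sum_mul]
  calc _ ≤ ∑ _w ∈ (wds K J).filter fun w => w ≠ [] ∧ Red w,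
        (2 * ((J + 1) * J) ^ s * Nat.factorial n ^ K) := by
        refine sum_le_sum fun w hw => ?_
        obtain ⟨h1, h2, h3⟩ := mem_filter.1 hw
        have hlen := length_of_mem_wds h1
        have hlen1 : 1 ≤ w.length := List.length_pos_iff.2 h2
        have hm := moment (n := n) (gl d w) hlen1 (redF_gl h3) s F₀
          (le_trans (Nat.mul_le_mul_left _ (Nat.pow_le_pow_left
            (Nat.mul_le_mul_left _ hlen) 2)) hn)
          (lt_of_le_of_lt (Nat.mul_le_mul_left _ hlen) hn1)
        refine le_trans (Nat.mul_le_mul_left _ (Nat.pow_le_pow_left (Nat.sub_le_sub_left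
          (Nat.mul_le_mul_left _ (Nat.pow_le_pow_left hlen 2)) _) _)) (hm.trans ?_)
        refine Nat.mul_le_mul_right _ (Nat.mul_le_mul_left _ (Nat.pow_le_pow_left ?_ _))
        exact Nat.mul_le_mul (by omega) hlen
    _ ≤ _ := by
      rw [sum_const, smul_eq_mul]
      exact Nat.mul_le_mul_right _ ((card_filter_le _ _).trans (wds_card hK J))

end Pool.Agent.Helper33.FS
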